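import Mathlib

open Complex

namespace Pool.Agent.Results.MP_274814_nt.Counter

/-- `F q` is the subfield of the complex numbers generated by pi and the values `Gamma (a / q)`
with `1 ≤ a ≤ q - 1` and `a` coprime to `q` -/
noncomputable def F (q : ℕ) : IntermediateField ℚ ℂ :=
  IntermediateField.adjoin ℚ ({(Real.pi : ℂ)} ∪
    {z | ∃ a : ℕ, 1 ≤ a ∧ a ≤ q - 1 ∧ Nat.Coprime a q ∧ z = Gamma ((a : ℂ) / (q : ℂ))})

lemma trdeg_le (s : Finset ℂ) (S : Set ℂ)
    (h : ∀ z ∈ S, IsAlgebraic (Algebra.adjoin ℚ (s : Set ℂ)) z) :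
    Algebra.trdeg ℚ (IntermediateField.adjoin ℚ S) ≤ s.card := by
  set R := Algebra.adjoin ℚ (s : Set ℂ) with hR
  let A := Subalgebra.algebraicClosure R ℂ
  have h1 : Algebra.trdeg ℚ R ≤ s.card := by
    rw [hR, Algebra.adjoin_eq_range]
    refine (trdeg_le_of_surjective _ (AlgHom.rangeRestrict_surjective _)).trans ?_
    simp
  have h2 : Algebra.IsAlgebraic R A := ⟨fun x =>
    (isAlgebraic_algebraMap_iff (A := ℂ) Subtype.val_injective).1 x.2⟩
  have h3 : Algebra.trdeg ℚ A = Algebra.trdeg ℚ R := by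
    rw [← trdeg_add_eq ℚ R (A := A), trdeg_eq_zero (R := R) (A := A), add_zero]
  let B : IntermediateField ℚ ℂ := (A.restrictScalars ℚ).toIntermediateField
    fun x hx => IsAlgebraic.inv hx
  have h4 : IntermediateField.adjoin ℚ S ≤ B := IntermediateField.adjoin_le_iff.2 h
  have h5 := trdeg_le_of_injective (IntermediateField.inclusion h4)
    (IntermediateField.inclusion_injective h4)
  exact h5.trans (h3.le.trans h1)

lemma half (q : ℕ) (hq : 2 < q) :
    2 * ((Finset.range q).filter fun a => a.Coprime q ∧ 2 * a < q).card ≤ q.totient := by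
  set T := (Finset.range q).filter fun a => a.Coprime q ∧ 2 * a < q with hT
  have h1 : (T.image (q - ·)).card = T.card := Finset.card_image_of_injOn fun a ha b hb h => by
    simp only [hT, Finset.coe_filter, Finset.mem_range, Set.mem_ofPred_eq] at ha hb h
    omega
  have h2 : Disjoint T (T.image (q - ·)) := by
    rw [Finset.disjoint_left]
    intro a ha hb
    obtain ⟨b, hc, rfl⟩ := Finset.mem_image.1 hb
    have := (Finset.mem_filter.1 ha).2.2
    have := (Finset.mem_filter.1 hc).2.2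
    omega
  rw [two_mul, Nat.totient_eq_card_coprime]
  nth_rewrite 2 [← h1]
  rw [← Finset.card_union_of_disjoint h2]
  apply Finset.card_le_card
  intro a ha
  simp only [hT, Finset.mem_union, Finset.mem_image, Finset.mem_filter, Finset.mem_range] at ha ⊢
  rcases ha with ha | ⟨b, hb, rfl⟩
  · exact ⟨ha.1, ha.2.1.symm⟩
  · have : b ≠ 0 := by rintro rfl; simp at hb; omega
    exact ⟨by omega, ((Nat.coprime_self_sub_left hb.1.le).2 hb.2.1).symm⟩

lemma Gne (a q : ℕ) (ha : 0 < a) (hq : 0 < q) : Gamma ((a : ℂ) / q) ≠ 0 := by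
  apply Gamma_ne_zero_of_re_pos
  have : ((a : ℂ) / q) = ((a / q : ℝ) : ℂ) := by push_cast; rfl
  rw [this, ofReal_re]
  positivity

section
variable (R : Subalgebra ℚ ℂ) (hpi : (Real.pi : ℂ) ∈ R)
include hpi

lemma refl (a q : ℕ) (ha : 0 < a) (haq : a < q) (h : IsAlgebraic R (Gamma ((a : ℂ) / q))) :
    IsAlgebraic R (Gamma (((q - a : ℕ) : ℂ) / q)) := by
  have hq : (q : ℂ) ≠ 0 := by exact_mod_cast (by omega : q ≠ 0)
  have e : ((q - a : ℕ) : ℂ) / q = 1 - (a : ℂ) / q := by
    rw [Nat.cast_sub haq.le]; field_simp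
  have h1 := Gamma_mul_Gamma_one_sub ((a : ℂ) / q)
  have h2 : IsAlgebraic R (sin (Real.pi * ((a : ℂ) / q))) := by
    have := (isAlgebraic_sin_rat_mul_pi (a / q)).extendScalars (S := ℚ) (RingHom.injective_int _)
    rw [mul_comm] at this
    push_cast at this
    exact this.extendScalars (algebraMap ℚ R).injective
  have h3 : IsAlgebraic R (Real.pi : ℂ) := isAlgebraic_algebraMap (⟨_, hpi⟩ : R)
  rw [e, eq_div_of_mul_eq (Gne a q ha (by omega)) ((mul_comm _ _).trans h1), div_eq_mul_inv,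
    div_eq_mul_inv]
  exact (h3.mul h2.inv).mul h.inv

lemma dup (a q : ℕ) (hq : 0 < q) :
    IsAlgebraic R ((2 : ℂ) ^ (1 - 2 * ((a : ℂ) / q)) * (√Real.pi : ℝ)) := by
  have hq' : (q : ℂ) ≠ 0 := by exact_mod_cast hq.ne'
  refine IsAlgebraic.mul (.of_pow hq ?_) (.of_pow two_pos ?_)
  · rw [← cpow_mul_nat, show (1 - 2 * ((a : ℂ) / q)) * q = ((q - 2 * a : ℤ) : ℂ) by
      push_cast; field_simp, cpow_intCast]
    have := isAlgebraic_algebraMap (R := R) (A := ℂ) (algebraMap ℚ R (2 ^ (q - 2 * a : ℤ)))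
    simpa using this
  · rw [← ofReal_pow, Real.sq_sqrt Real.pi_pos.le]
    exact isAlgebraic_algebraMap (⟨_, hpi⟩ : R)
end

lemma main (n : ℕ) (hn : 3 ≤ n) :
    Algebra.trdeg ℚ (F (2 * (2 ^ n - 1))) ≤ ((2 * (2 ^ n - 1)).totient / 2 : ℕ) := by
  classical
  obtain ⟨f, hf⟩ : ∃ f, 2 ^ n = f + 1 := ⟨2 ^ n - 1, by have := Nat.two_pow_pos n; omega⟩
  have h8 : 2 ^ 3 ≤ 2 ^ n := Nat.pow_le_pow_right two_pos hn
  have hodd : Odd f := by
    have : Even (2 ^ n) := (Nat.even_pow.2 ⟨even_two, by omega⟩)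
    rw [hf] at this
    exact Nat.not_even_iff_odd.1 (Nat.even_add_one.1 this)
  rw [hf, Nat.add_sub_cancel]
  set q := 2 * f with hq
  set T := (Finset.range q).filter fun a => a.Coprime q ∧ 2 * a < q with hT
  let s : Finset ℂ := insert (Real.pi : ℂ) ((T.erase 1).image fun a : ℕ => Gamma ((a : ℂ) / q))
  have hc : s.card ≤ q.totient / 2 := by
    have h1 : 1 ∈ T := by simp [hT]; omega
    have h2 := half q (by omega)
    have h3 := Finset.card_erase_add_one h1
    have h4 := Finset.card_insert_le (Real.pi : ℂ)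
      ((T.erase 1).image fun a : ℕ => Gamma ((a : ℂ) / q))
    have h5 : ((T.erase 1).image fun a : ℕ => Gamma ((a : ℂ) / q)).card ≤ _ := Finset.card_image_le
    rw [← hT] at h2
    simp only [s]
    omega
  refine (trdeg_le s _ ?_).trans (by exact_mod_cast hc)
  set R := Algebra.adjoin ℚ (s : Set ℂ) with hR
  have hpi : (Real.pi : ℂ) ∈ R := Algebra.subset_adjoin (by simp [s])
  have low : ∀ a : ℕ, a.Coprime q → 2 * a < q → a ≠ 1 → IsAlgebraic R (Gamma ((a : ℂ) / q)) := by
    intro a h1 h2 h3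
    refine isAlgebraic_algebraMap (⟨_, Algebra.subset_adjoin ?_⟩ : R)
    simp only [s, Finset.coe_insert, Finset.coe_image]
    exact Or.inr ⟨a, by simp [hT, h2, h3]; omega, rfl⟩
  have high : ∀ a : ℕ, a.Coprime q → a < q → q ≤ 2 * a →
      IsAlgebraic R (Gamma (((q - a : ℕ) : ℂ) / q)) → IsAlgebraic R (Gamma ((a : ℂ) / q)) := by
    intro a h1 h2 h3 h
    have := refl R hpi (q - a) q (by omega) (by omega) h
    rwa [Nat.sub_sub_self h2.le] at this
  have nf : ∀ a : ℕ, a.Coprime q → q ≠ 2 * a := by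
    intro a h1 h2
    have : a = f := by omega
    have := Nat.Coprime.eq_one_of_dvd h1 ⟨2, by omega⟩
    omega
  have mid : ∀ k, 1 ≤ k → k < n → IsAlgebraic R (Gamma (((2 ^ k + f : ℕ) : ℂ) / q)) := by
    intro k h1 h2
    have a1 : 2 ^ (k + 1) ≤ 2 ^ n := Nat.pow_le_pow_right two_pos h2
    have a2 : 2 ^ 1 ≤ 2 ^ k := Nat.pow_le_pow_right two_pos h1
    have a3 : (2 ^ k + f).Coprime q := by
      refine Nat.Coprime.mul_right ?_ ?_
      · rw [Nat.coprime_two_right]
        exact (Nat.even_pow.2 ⟨even_two, by omega⟩).add_odd hodd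
      · rw [Nat.coprime_add_self_left]
        exact (Nat.coprime_two_left.2 hodd).pow_left _
    refine high _ a3 (by omega) (by omega) (low _ ?_ (by omega) (by omega))
    exact (Nat.coprime_self_sub_left (by omega)).2 a3
  have hq0 : (f : ℂ) ≠ 0 := by exact_mod_cast (by omega : f ≠ 0)
  have step : ∀ a : ℕ, Gamma ((a : ℂ) / q) * Gamma (((a + f : ℕ) : ℂ) / q) =
      Gamma (((2 * a : ℕ) : ℂ) / q) * (2 ^ (1 - 2 * ((a : ℂ) / q)) * (√Real.pi : ℝ)) := by
    intro a
    have := Gamma_mul_Gamma_add_half ((a : ℂ) / q)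
    rw [mul_assoc] at this
    convert this using 3
    · simp only [hq]; push_cast; field_simp
    · push_cast; ring
  have chain : ∀ j k, 1 ≤ k → k + j = n →
      IsAlgebraic R (Gamma (((2 ^ k : ℕ) : ℂ) / q) * (Gamma (((2 ^ n : ℕ) : ℂ) / q))⁻¹) := by
    intro j
    induction j with
    | zero =>
      rintro k - rfl
      rw [add_zero, mul_inv_cancel₀ (Gne _ _ (by positivity) (by omega))]
      exact isAlgebraic_one
    | succ j ih =>
      intro k h1 h2
      have := ((ih (k + 1) (by omega) (by omega)).mul (dup R hpi (2 ^ k) q (by omega))).mul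
        (mid k h1 (by omega)).inv
      have e := step (2 ^ k)
      have h0 := Gne (2 ^ k + f) q (by positivity) (by omega)
      rw [← pow_succ'] at e
      rwa [mul_right_comm (Gamma _), ← e, mul_right_comm, mul_inv_cancel_right₀ h0] at this
  have one : IsAlgebraic R (Gamma (((1 : ℕ) : ℂ) / q)) := by
    have := (chain (n - 1) 1 le_rfl (by omega)).mul (dup R hpi 1 q (by omega))
    have e := step 1
    have h0 := Gne (2 ^ n) q (by positivity) (by omega)
    rw [add_comm 1 f, ← hf] at e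
    rwa [mul_right_comm (Gamma _), show 2 ^ 1 = 2 * 1 from rfl, ← e,
      mul_inv_cancel_right₀ h0] at this
  have low' : ∀ a : ℕ, a.Coprime q → 2 * a < q → IsAlgebraic R (Gamma ((a : ℂ) / q)) := by
    intro a h1 h2
    by_cases h : a = 1
    · exact h ▸ one
    · exact low a h1 h2 h
  rintro z (rfl | ⟨a, h1, h2, h3, rfl⟩)
  · exact isAlgebraic_algebraMap (⟨_, hpi⟩ : R)
  · by_cases h : 2 * a < q
    · exact low' a h3 h
    · have := nf a h3
      exact high a h3 (by omega) (by omega)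
        (low' _ ((Nat.coprime_self_sub_left (by omega)).2 h3) (by omega))

theorem result :
    (∀ n : ℕ, 3 ≤ n →
      Algebra.trdeg ℚ (F (2 * (2 ^ n - 1))) ≤ ((2 * (2 ^ n - 1)).totient / 2 : ℕ)) ∧
    ¬ ∀ q : ℕ, 2 < q → ((1 + q.totient / 2 : ℕ) : Cardinal) ≤ Algebra.trdeg ℚ (F q) := by
  refine ⟨main, fun h => ?_⟩
  have := (h _ (by norm_num)).trans (main 3 le_rfl)
  rw [Nat.cast_le] at this
  omega

end Pool.Agent.Results.MP_274814_nt.Counter
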